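import Mathlib

set_option autoImplicit false

/-!
# Two distant sets in the discrete cube
-/

namespace Pool.Agent.K1H44.CubeIso

open Finset

/-- the slice of `P` over the first coordinate `b` -/
def slice {d : ℕ} (P : Finset (Fin (d + 1) → Bool)) (b : Bool) : Finset (Fin d → Bool) :=
  univ.filter fun x => (Fin.cons b x : Fin (d + 1) → Bool) ∈ P

theorem mem_slice {d : ℕ} {P : Finset (Fin (d + 1) → Bool)} {b : Bool} {x : Fin d → Bool} :
    x ∈ slice P b ↔ (Fin.cons b x : Fin (d + 1) → Bool) ∈ P := by
  simp [slice]

theorem card_slice {d : ℕ} (P : Finset (Fin (d + 1) → Bool)) :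
    P.card = (slice P false).card + (slice P true).card := by
  classical
  have h : P = (slice P false).image (fun x => (Fin.cons false x : Fin (d + 1) → Bool)) ∪
      (slice P true).image (fun x => (Fin.cons true x : Fin (d + 1) → Bool)) := by
    ext x
    simp only [mem_union, mem_image, mem_slice]
    constructor
    · intro hx
      have hx' : (Fin.cons (x 0) (Fin.tail x) : Fin (d + 1) → Bool) = x := Fin.cons_self_tail x
      cases h0 : x 0
      · left
        rw [h0] at hx'
        exact ⟨Fin.tail x, by rw [hx']; exact hx, hx'⟩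
      · right
        rw [h0] at hx'
        exact ⟨Fin.tail x, by rw [hx']; exact hx, hx'⟩
    · rintro (⟨y, hy, rfl⟩ | ⟨y, hy, rfl⟩) <;> exact hy
  have hinj : ∀ b : Bool, Function.Injective
      (fun x : Fin d → Bool => (Fin.cons b x : Fin (d + 1) → Bool)) := by
    intro b x y hxy
    exact (Fin.cons_right_injective (α := fun _ => Bool) b) hxy
  conv_lhs => rw [h]
  rw [card_union_of_disjoint, card_image_of_injective _ (hinj _),
    card_image_of_injective _ (hinj _)]
  rw [disjoint_left]
  intro x hx hx'
  simp only [mem_image] at hx hx'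
  obtain ⟨y, _, rfl⟩ := hx
  obtain ⟨z, _, hz⟩ := hx'
  have := congrFun hz 0
  simp at this

theorem hammingDist_cons {d : ℕ} (a b : Bool) (x z : Fin d → Bool) :
    hammingDist (Fin.cons a x : Fin (d + 1) → Bool) (Fin.cons b z) =
      (if a = b then 0 else 1) + hammingDist x z := by
  unfold hammingDist
  rw [card_filter, card_filter, Fin.sum_univ_succ]
  simp only [Fin.cons_zero, Fin.cons_succ]
  congr 1
  split_ifs <;> simp_all

theorem real_key {a b c e T q : ℝ} (hq : 1 ≤ q) (ha0 : 0 ≤ a) (hb0 : 0 ≤ b) (hc0 : 0 ≤ c)
    (he0 : 0 ≤ e) (ha : a ≤ T) (hb : b ≤ T) (hc : c ≤ q * T) (he : e ≤ q * T)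
    (h : a * b = c * e) : a + b + c + e ≤ T * (2 + q + 1 / q) := by
  have hT : 0 ≤ T := ha0.trans ha
  have hq0 : 0 < q := by linarith
  rcases hT.eq_or_lt with hT0 | hT0
  · subst hT0
    simp at hc he
    nlinarith
  have hce : c * e ≤ T * T := by rw [← h]; exact mul_le_mul ha hb hb0 hT
  suffices hs : c + e ≤ q * T + T / q by
    have : T * (2 + q + 1 / q) = 2 * T + (q * T + T / q) := by ring
    linarith
  rcases le_total c (T / q) with h1 | h1
  · linarith
  · -- `(q T - c) (c - T / q) ≥ 0`
    have hcpos : 0 < c := lt_of_lt_of_le (by positivity) h1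
    have h2 : 0 ≤ (q * T - c) * (c - T / q) := mul_nonneg (by linarith) (by linarith)
    have h3 : (q * T - c) * (c - T / q) = c * (q * T + T / q) - c * c - T * T := by
      field_simp
      ring
    have h4 : c * (c + e) ≤ c * (q * T + T / q) := by nlinarith
    exact le_of_mul_le_mul_left h4 hcpos

/-- If all points of `P` are at Hamming distance at least `s` from all points of `Q`, then
`|P| |Q| q^s ≤ (2 + q + 1/q)^d`. -/
theorem card_mul_card_le (q : ℝ) (hq : 1 ≤ q) : ∀ (d s : ℕ) (P Q : Finset (Fin d → Bool)),
    (∀ x ∈ P, ∀ z ∈ Q, s ≤ hammingDist x z) →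
    (P.card : ℝ) * Q.card * q ^ s ≤ (2 + q + 1 / q) ^ d := by
  have hq0 : 0 < q := by linarith
  intro d
  induction d with
  | zero =>
    intro s P Q h
    rcases P.eq_empty_or_nonempty with hP | ⟨x, hx⟩
    · simp [hP]
    rcases Q.eq_empty_or_nonempty with hQ | ⟨z, hz⟩
    · simp [hQ]
    have hs : s = 0 := by
      have h1 := h x hx z hz
      have h2 : x = z := Subsingleton.elim _ _
      rw [h2, hammingDist_self] at h1
      omega
    have h1 : P.card ≤ 1 := by
      have := card_le_univ P
      simpa using this
    have h2 : Q.card ≤ 1 := by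
      have := card_le_univ Q
      simpa using this
    rw [hs, pow_zero, pow_zero, mul_one]
    have h3 : P.card * Q.card ≤ 1 * 1 := Nat.mul_le_mul h1 h2
    exact_mod_cast h3
  | succ d ih =>
    intro s P Q h
    have key : ∀ a b : Bool, ((slice P a).card : ℝ) * (slice Q b).card * q ^ s ≤
        (if a = b then 1 else q) * (2 + q + 1 / q) ^ d := by
      intro a b
      by_cases hab : a = b
      · rw [if_pos hab, one_mul]
        apply ih
        intro x hx z hz
        have h1 := h _ (mem_slice.mp hx) _ (mem_slice.mp hz)
        rw [hammingDist_cons, if_pos hab] at h1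
        omega
      · rw [if_neg hab]
        have h2 := ih (s - 1) (slice P a) (slice Q b) (by
          intro x hx z hz
          have h1 := h _ (mem_slice.mp hx) _ (mem_slice.mp hz)
          rw [hammingDist_cons, if_neg hab] at h1
          omega)
        have h3 : q ^ s ≤ q * q ^ (s - 1) := by
          rw [← pow_succ']
          exact pow_le_pow_right₀ hq (by omega)
        calc ((slice P a).card : ℝ) * (slice Q b).card * q ^ s
            ≤ (slice P a).card * (slice Q b).card * (q * q ^ (s - 1)) :=
              mul_le_mul_of_nonneg_left h3 (by positivity)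
          _ = q * ((slice P a).card * (slice Q b).card * q ^ (s - 1)) := by ring
          _ ≤ q * (2 + q + 1 / q) ^ d := mul_le_mul_of_nonneg_left h2 hq0.le
    have h00 := key false false
    have h11 := key true true
    have h01 := key false true
    have h10 := key true false
    simp only [if_true, one_mul, reduceCtorEq, if_false] at h00 h11 h01 h10
    rw [card_slice P, card_slice Q]
    push_cast
    have hfin := real_key (a := ((slice P false).card : ℝ) * (slice Q false).card * q ^ s)
      (b := ((slice P true).card : ℝ) * (slice Q true).card * q ^ s)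
      (c := ((slice P false).card : ℝ) * (slice Q true).card * q ^ s)
      (e := ((slice P true).card : ℝ) * (slice Q false).card * q ^ s)
      (T := (2 + q + 1 / q) ^ d) hq (by positivity) (by positivity) (by positivity)
      (by positivity) h00 h11 h01 h10 (by ring)
    rw [pow_succ]
    linarith

end Pool.Agent.K1H44.CubeIso
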