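import Mathlib
import Pool.Agent.H709Exc.J_girth_graph

set_option autoImplicit false

/-!
# Graphs with many edges and no short cycle; graphs of minimum degree two
-/

namespace Pool.Agent.K1H44.CycFam

open SimpleGraph

/-- A finite graph in which every vertex has two neighbours has a cycle. -/
theorem exists_cycle {V : Type*} [Finite V] [Nonempty V] (G : SimpleGraph V)
    (h : ∀ v, 2 ≤ (G.neighborSet v).ncard) : ¬ G.IsAcyclic := by
  classical
  intro hG
  have : Finite G.edgeSet := inferInstance
  obtain ⟨u, v, p, hp, hmax⟩ := Walk.exists_isPath_forall_isPath_length_le_length G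
  obtain ⟨a, ha, b, hb, hab⟩ := (Set.one_lt_ncard (Set.toFinite _)).mp
    (lt_of_lt_of_le one_lt_two (h u))
  have key : ∀ w, G.Adj u w → w = p.snd := by
    intro w hw
    apply hG.eq_snd_of_adj_start hp hw
    by_contra hs
    have h1 := hmax _ _ _ (hp.cons (h := hw.symm) hs)
    rw [Walk.length_cons] at h1
    omega
  exact hab ((key a ha).trans (key b hb).symm)

/-- For every `K` there is a nonempty graph without cycles of length at most `K` and with at least
`K / 2` times as many edges as vertices. -/
theorem exists_dense (K : ℕ) : ∃ m : ℕ, 1 ≤ m ∧ ∃ T : SimpleGraph (Fin m),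
    (∀ ℓ, 3 ≤ ℓ → (cycleGraph ℓ).IsContained T → K < ℓ) ∧ K * m ≤ 2 * T.edgeSet.ncard := by
  classical
  obtain ⟨V, hV, hne, H, hdeg, hgirth⟩ := Pool.Agent.H709Exc.girth_graph.{0} K K
  let e : V ≃ Fin (Fintype.card V) := Fintype.equivFin V
  refine ⟨Fintype.card V, Fintype.card_pos, H.comap e.symm, ?_, ?_⟩
  · intro ℓ hℓ hc
    have h1 : (H.comap e.symm).IsContained H := ⟨(SimpleGraph.Embedding.comap e.symm.toEmbedding H).toCopy⟩
    obtain ⟨v, w, hw, hlen⟩ := (cycleGraph_isContained_iff (by omega)).mp (hc.trans h1)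
    rw [← hlen]
    exact hgirth v w hw
  · have h2 : (H.comap e.symm).edgeSet.ncard = H.edgeFinset.card := by
      rw [Set.ncard_eq_toFinset_card']
      have h3 := (Iso.comap e.symm H).card_edgeFinset_eq
      exact h3
    rw [h2, ← H.sum_degrees_eq_twice_card_edges]
    calc K * Fintype.card V = ∑ _v : V, K := by
          rw [Finset.sum_const, Finset.card_univ, smul_eq_mul, mul_comm]
      _ ≤ ∑ v : V, H.degree v := by
        apply Finset.sum_le_sum
        intro v _
        obtain ⟨S, hS, hS2⟩ := hdeg v
        refine hS.trans ?_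
        rw [← H.card_neighborFinset_eq_degree]
        apply Finset.card_le_card
        intro w hw
        rw [mem_neighborFinset]
        exact hS2 w hw

/-- the complete bipartite graph between the even and the odd elements of `Fin k` -/
def parity (k : ℕ) : SimpleGraph (Fin k) where
  Adj u v := (u : ℕ) % 2 ≠ (v : ℕ) % 2
  symm := ⟨fun _ _ h => h.symm⟩
  loopless := ⟨fun _ h => h rfl⟩

theorem parity_colorable (k : ℕ) : (parity k).Colorable 2 :=
  ⟨Coloring.mk (fun v : Fin k => (⟨(v : ℕ) % 2, Nat.mod_lt _ (by norm_num)⟩ : Fin 2)) (by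
    intro u v h huv
    exact h (congrArg Fin.val huv))⟩

theorem parity_degree {k : ℕ} (hk : 4 ≤ k) (v : Fin k) :
    2 ≤ ((parity k).neighborSet v).ncard := by
  have h : ∃ a b : Fin k, a ≠ b ∧ (parity k).Adj v a ∧ (parity k).Adj v b := by
    rcases Nat.mod_two_eq_zero_or_one (v : ℕ) with h | h
    · refine ⟨⟨1, by omega⟩, ⟨3, by omega⟩, by simp, ?_, ?_⟩ <;> simp [parity, h]
    · refine ⟨⟨0, by omega⟩, ⟨2, by omega⟩, by simp, ?_, ?_⟩ <;> simp [parity, h]
  obtain ⟨a, b, hab, ha, hb⟩ := h
  exact (Set.one_lt_ncard (Set.toFinite _)).mpr ⟨a, ha, b, hb, hab⟩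

theorem parity_cycle {k : ℕ} (hk : 4 ≤ k) : (cycleGraph 4).IsContained (parity k) := by
  have hadj : ∀ i j : Fin 4, (cycleGraph 4).Adj i j → (i : ℕ) % 2 ≠ (j : ℕ) % 2 := by
    intro i j h
    rw [cycleGraph_adj] at h
    revert i j
    decide
  exact ⟨⟨⟨Fin.castLE hk, fun {i j} h => hadj i j h⟩, Fin.castLE_injective hk⟩⟩

/-- `M` disjoint copies of the complete graph with `D + 1` vertices -/
def blocks (M D : ℕ) : SimpleGraph (Fin (M * (D + 1))) where
  Adj u v := (finProdFinEquiv.symm u).1 = (finProdFinEquiv.symm v).1 ∧ u ≠ v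
  symm := ⟨fun _ _ h => ⟨h.1.symm, h.2.symm⟩⟩
  loopless := ⟨fun _ h => h.2 rfl⟩

theorem blocks_degree (M D : ℕ) (v : Fin (M * (D + 1))) :
    ((blocks M D).neighborSet v).ncard = D := by
  classical
  have h1 : (blocks M D).neighborSet v =
      (fun j : Fin (D + 1) => finProdFinEquiv ((finProdFinEquiv.symm v).1, j)) ''
        {j | j ≠ (finProdFinEquiv.symm v).2} := by
    ext u
    simp only [mem_neighborSet, blocks, Set.mem_image, Set.mem_ofPred_eq]
    constructor
    · rintro ⟨h, hne⟩
      refine ⟨(finProdFinEquiv.symm u).2, ?_, ?_⟩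
      · intro h2
        apply hne
        apply finProdFinEquiv.symm.injective
        exact Prod.ext h h2.symm
      · rw [h]
        exact finProdFinEquiv.apply_symm_apply u
    · rintro ⟨j, hj, rfl⟩
      rw [Equiv.symm_apply_apply]
      refine ⟨rfl, ?_⟩
      intro h
      apply hj
      rw [h, Equiv.symm_apply_apply]
  rw [h1, Set.ncard_image_of_injective]
  · have h2 : {j : Fin (D + 1) | j ≠ (finProdFinEquiv.symm v).2} =
        ((Finset.univ.erase (finProdFinEquiv.symm v).2 : Finset (Fin (D + 1))) :
          Set (Fin (D + 1))) := by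
      ext j
      simp
    rw [h2, Set.ncard_coe_finset, Finset.card_erase_of_mem (Finset.mem_univ _), Finset.card_univ,
      Fintype.card_fin]
    omega
  · intro i j hij
    have := finProdFinEquiv.injective hij
    exact (Prod.ext_iff.mp this).2

theorem walk_block {M D : ℕ} {H : SimpleGraph (Fin (M * (D + 1)))} (hH : H ≤ blocks M D)
    {u v : Fin (M * (D + 1))} (p : H.Walk u v) :
    ∀ x ∈ p.support, (finProdFinEquiv.symm x).1 = (finProdFinEquiv.symm u).1 := by
  induction p with
  | nil =>
    intro x hx
    rw [Walk.support_nil, List.mem_singleton] at hx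
    rw [hx]
  | cons h q ih =>
    intro x hx
    rw [Walk.support_cons, List.mem_cons] at hx
    rcases hx with hx | hx
    · rw [hx]
    · rw [ih x hx]
      exact (hH h).1.symm

/-- cycles in subgraphs of `blocks M D` are short -/
theorem cycle_length {M D : ℕ} {H : SimpleGraph (Fin (M * (D + 1)))} (hH : H ≤ blocks M D)
    {v : Fin (M * (D + 1))} (p : H.Walk v v) (hp : p.IsCycle) : p.length ≤ D + 1 := by
  classical
  have h1 : p.support.tail.length = p.length := by
    rw [List.length_tail, Walk.length_support]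
    omega
  have h2 : (p.support.tail.map fun x => (finProdFinEquiv.symm x).2).Nodup := by
    apply List.Nodup.map_on _ hp.support_nodup
    intro x hx y hy hxy
    apply finProdFinEquiv.symm.injective
    apply Prod.ext _ hxy
    rw [walk_block hH p x (List.mem_of_mem_tail hx), walk_block hH p y (List.mem_of_mem_tail hy)]
  have h3 := h2.length_le_card
  rw [List.length_map, h1, Fintype.card_fin] at h3
  exact h3

end Pool.Agent.K1H44.CycFam
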