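import Mathlib
import Pool.Agent.K1H44.CubeIso

set_option autoImplicit false

/-!
# Families of subsets of `[d]` with large pairwise intersections
-/

namespace Pool.Agent.K1H44.TInt

open Finset Pool.Agent.K1H44.CubeIso

/-- A family of subsets of `Fin d` any two members of which (equal or not) share at least `τ d`
elements has at most `2^d exp (- 2 τ² d / 9)` members. -/
theorem card_le {d : ℕ} {τ : ℝ} (hτ0 : 0 ≤ τ) (hτ1 : τ ≤ 3 / 8) (F : Finset (Finset (Fin d)))
    (hF : ∀ x ∈ F, ∀ y ∈ F, τ * d ≤ ((x ∩ y).card : ℝ)) :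
    (F.card : ℝ) ≤ 2 ^ d * Real.exp (-(2 / 9 * τ ^ 2 * d)) := by
  classical
  obtain ⟨s, hs⟩ : ∃ s : ℕ, s = ⌈τ * d⌉₊ := ⟨_, rfl⟩
  have hs1 : τ * d ≤ s := by rw [hs]; exact Nat.le_ceil _
  let e1 : Finset (Fin d) → (Fin d → Bool) := fun x i => decide (i ∈ x)
  let e2 : Finset (Fin d) → (Fin d → Bool) := fun x i => decide (i ∉ x)
  have i1 : Function.Injective e1 := by
    intro x y hxy
    ext i
    have := congrFun hxy i
    simpa [e1] using this
  have i2 : Function.Injective e2 := by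
    intro x y hxy
    ext i
    have := congrFun hxy i
    simp only [e2, decide_eq_decide] at this
    tauto
  have hmain := card_mul_card_le (1 + τ) (by linarith) d s (F.image e1) (F.image e2) (by
    intro x hx z hz
    rw [mem_image] at hx hz
    obtain ⟨x, hx, rfl⟩ := hx
    obtain ⟨z, hz, rfl⟩ := hz
    have h1 := hF x hx z hz
    have h2 : s ≤ (x ∩ z).card := by
      rw [hs]
      exact Nat.ceil_le.mpr h1
    refine h2.trans ?_
    unfold hammingDist
    apply card_le_card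
    intro i hi
    rw [mem_inter] at hi
    simp [e1, e2, hi.1, hi.2])
  rw [card_image_of_injective _ i1, card_image_of_injective _ i2] at hmain
  -- numerics
  have hq : (2 + (1 + τ) + 1 / (1 + τ)) ≤ 4 * Real.exp (τ ^ 2 / 4) := by
    have h1 : τ ^ 2 / 4 + 1 ≤ Real.exp (τ ^ 2 / 4) := Real.add_one_le_exp _
    have h2 : (2 + (1 + τ) + 1 / (1 + τ)) ≤ 4 + τ ^ 2 := by
      have h3 : (2 + (1 + τ) + 1 / (1 + τ)) = 4 + τ ^ 2 / (1 + τ) := by
        field_simp
        ring
      rw [h3]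
      have : τ ^ 2 / (1 + τ) ≤ τ ^ 2 := div_le_self (by positivity) (by linarith)
      linarith
    linarith
  have hpow : (2 + (1 + τ) + 1 / (1 + τ)) ^ d ≤ 4 ^ d * Real.exp (τ ^ 2 / 4 * d) := by
    calc (2 + (1 + τ) + 1 / (1 + τ)) ^ d ≤ (4 * Real.exp (τ ^ 2 / 4)) ^ d :=
          pow_le_pow_left₀ (by positivity) hq d
      _ = 4 ^ d * Real.exp (τ ^ 2 / 4 * d) := by
        rw [mul_pow, ← Real.exp_nat_mul, mul_comm (d : ℝ)]
  have hlog : 8 / 11 * τ ≤ Real.log (1 + τ) := by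
    have h1 : 1 - (1 + τ)⁻¹ ≤ Real.log (1 + τ) :=
      Real.one_sub_inv_le_log_of_pos (by linarith)
    have h2 : 8 / 11 * τ ≤ 1 - (1 + τ)⁻¹ := by
      have h3 : 1 - (1 + τ)⁻¹ = τ / (1 + τ) := by field_simp; ring
      rw [h3, le_div_iff₀ (by linarith)]
      nlinarith
    linarith
  have hqs : Real.exp (8 / 11 * τ ^ 2 * d) ≤ (1 + τ) ^ s := by
    have h1 : (1 + τ) ^ s = Real.exp (s * Real.log (1 + τ)) := by
      rw [Real.exp_nat_mul, Real.exp_log (by linarith)]
    rw [h1]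
    apply Real.exp_le_exp.mpr
    have h2 : 8 / 11 * τ ^ 2 * d = (τ * d) * (8 / 11 * τ) := by ring
    rw [h2]
    exact mul_le_mul hs1 hlog (by positivity) (Nat.cast_nonneg _)
  have h3 : (F.card : ℝ) ^ 2 ≤ (2 ^ d * Real.exp (-(2 / 9 * τ ^ 2 * d))) ^ 2 := by
    have h4 : (F.card : ℝ) ^ 2 * Real.exp (8 / 11 * τ ^ 2 * d) ≤
        4 ^ d * Real.exp (τ ^ 2 / 4 * d) := by
      calc (F.card : ℝ) ^ 2 * Real.exp (8 / 11 * τ ^ 2 * d) ≤
            F.card * F.card * (1 + τ) ^ s := by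
            rw [pow_two]
            exact mul_le_mul_of_nonneg_left hqs (by positivity)
        _ ≤ _ := hmain
        _ ≤ _ := hpow
    have h5 : (F.card : ℝ) ^ 2 ≤ 4 ^ d * Real.exp (τ ^ 2 / 4 * d) *
        Real.exp (-(8 / 11 * τ ^ 2 * d)) := by
      rw [Real.exp_neg, ← div_eq_mul_inv, le_div_iff₀ (Real.exp_pos _)]
      exact h4
    refine h5.trans ?_
    rw [mul_assoc, ← Real.exp_add, mul_pow, ← pow_mul, mul_comm d 2, pow_mul, ← Real.exp_nat_mul]
    norm_num
    have : 0 ≤ τ ^ 2 * d := by positivity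
    nlinarith
  exact abs_le_of_sq_le_sq' h3 (by positivity) |>.2

end Pool.Agent.K1H44.TInt
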